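import Pool.Agent.helper53.SP4.Spec

/-!
# Project SP4 (MP_561ff4_al), row S4W: Witt
-/

set_option autoImplicit false

namespace Pool.Agent.SP4

open Pool.Agent.GS

section
variable {F : Type} [Field F] [CharP F 2]

theorem S4W_two : (2 : F) = 0 := by
  have := CharP.cast_eq_zero F 2
  exact_mod_cast this

/-- the linear map with given images of the standard basis -/
def S4W_L (e1 e2 f2 f1 : Fin 4 → F) : (Fin 4 → F) →ₗ[F] (Fin 4 → F) where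
  toFun w := w 0 • e1 + w 1 • e2 + w 2 • f2 + w 3 • f1
  map_add' u w := by
    simp only [Pi.add_apply, add_smul]
    abel
  map_smul' c w := by
    simp only [Pi.smul_apply, smul_eq_mul, mul_smul, smul_add, RingHom.id_apply]

theorem S4W_B (e1 e2 f2 f1 : Fin 4 → F) (h : Gs e1 e2 f2 f1) (u w : Fin 4 → F) :
    B (S4W_L e1 e2 f2 f1 u) (S4W_L e1 e2 f2 f1 w) = B u w := by
  obtain ⟨h1, h2, h3, h4, h5, h6⟩ := h
  have h0 := S4W_two (F := F)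
  unfold B at h1 h2 h3 h4 h5 h6 ⊢
  show (u 0 • e1 + u 1 • e2 + u 2 • f2 + u 3 • f1) 0 * (w 0 • e1 + w 1 • e2 + w 2 • f2 + w 3 • f1) 3 +
    (u 0 • e1 + u 1 • e2 + u 2 • f2 + u 3 • f1) 1 * (w 0 • e1 + w 1 • e2 + w 2 • f2 + w 3 • f1) 2 +
    (u 0 • e1 + u 1 • e2 + u 2 • f2 + u 3 • f1) 2 * (w 0 • e1 + w 1 • e2 + w 2 • f2 + w 3 • f1) 1 +
    (u 0 • e1 + u 1 • e2 + u 2 • f2 + u 3 • f1) 3 * (w 0 • e1 + w 1 • e2 + w 2 • f2 + w 3 • f1) 0 =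
    u 0 * w 3 + u 1 * w 2 + u 2 * w 1 + u 3 * w 0
  simp only [Pi.add_apply, Pi.smul_apply, smul_eq_mul]
  linear_combination (u 0 * w 3 + u 3 * w 0) * h1 + (u 1 * w 2 + u 2 * w 1) * h2 + (u 0 * w 1 + u 1 * w 0) * h3 +
    (u 0 * w 2 + u 2 * w 0) * h4 + (u 1 * w 3 + u 3 * w 1) * h5 + (u 2 * w 3 + u 3 * w 2) * h6 +
    (u 0 * w 0 * (e1 0 * e1 3 + e1 1 * e1 2) + u 1 * w 1 * (e2 0 * e2 3 + e2 1 * e2 2) +
      u 2 * w 2 * (f2 0 * f2 3 + f2 1 * f2 2) + u 3 * w 3 * (f1 0 * f1 3 + f1 1 * f1 2)) * h0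

theorem S4W_1 (hnd : ∀ v : Fin 4 → F, (∀ w, B v w = 0) → v = 0) (e1 e2 f2 f1 : Fin 4 → F) (h : Gs e1 e2 f2 f1) :
    ∃ g : SG F, (g : (Fin 4 → F) ≃ₗ[F] (Fin 4 → F)) (Pi.single 0 1) = e1 ∧
    (g : (Fin 4 → F) ≃ₗ[F] (Fin 4 → F)) (Pi.single 1 1) = e2 ∧ (g : (Fin 4 → F) ≃ₗ[F] (Fin 4 → F)) (Pi.single 2 1) = f2 ∧
    (g : (Fin 4 → F) ≃ₗ[F] (Fin 4 → F)) (Pi.single 3 1) = f1 := by
  have hinj : Function.Injective (S4W_L e1 e2 f2 f1) := by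
    rw [← LinearMap.ker_eq_bot, LinearMap.ker_eq_bot']
    intro w hw
    refine hnd w fun u => ?_
    rw [← S4W_B e1 e2 f2 f1 h w u, hw]
    simp [B]
  obtain ⟨g, hg⟩ : ∃ g : (Fin 4 → F) ≃ₗ[F] (Fin 4 → F), ∀ w, g w = S4W_L e1 e2 f2 f1 w :=
    ⟨LinearEquiv.ofInjectiveEndo _ hinj, fun w => rfl⟩
  have hL : ∀ w, S4W_L e1 e2 f2 f1 w = w 0 • e1 + w 1 • e2 + w 2 • f2 + w 3 • f1 := fun w => rfl
  refine ⟨⟨g, fun u w => by rw [hg, hg]; exact S4W_B e1 e2 f2 f1 h u w⟩, ?_, ?_, ?_, ?_⟩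
  · show g _ = _
    rw [hg, hL]
    simp
  · show g _ = _
    rw [hg, hL]
    simp
  · show g _ = _
    rw [hg, hL]
    simp
  · show g _ = _
    rw [hg, hL]
    simp

/-- projection to the orthogonal complement of `v, f1` -/
def S4W_pr (v f1 u : Fin 4 → F) : Fin 4 → F := u + B u f1 • v + B u v • f1

omit [CharP F 2] in
theorem S4W_lin (z u v f1 : Fin 4 → F) (c d : F) : B z (u + c • v + d • f1) = B z u + c * B z v + d * B z f1 := by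
  unfold B
  simp only [Pi.add_apply, Pi.smul_apply, smul_eq_mul]
  ring

omit [CharP F 2] in
theorem S4W_sc (z u : Fin 4 → F) (c : F) : B z (c • u) = c * B z u := by
  unfold B
  simp only [Pi.smul_apply, smul_eq_mul]
  ring

omit [CharP F 2] in
theorem S4W_sym (u v : Fin 4 → F) : B u v = B v u := by
  unfold B
  ring

theorem S4W_self (v : Fin 4 → F) : B v v = 0 := by
  have h0 := S4W_two (F := F)
  unfold B
  linear_combination (v 0 * v 3 + v 1 * v 2) * h0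

theorem S4W_pr1 (v f1 u : Fin 4 → F) (h : B v f1 = 1) : B v (S4W_pr v f1 u) = 0 ∧ B f1 (S4W_pr v f1 u) = 0 ∧
    ∀ z, B v z = 0 → B f1 z = 0 → B z (S4W_pr v f1 u) = B z u := by
  have h0 := S4W_two (F := F)
  unfold S4W_pr
  refine ⟨?_, ?_, ?_⟩
  · rw [S4W_lin, S4W_self, h, S4W_sym v u]
    linear_combination B u v * h0
  · rw [S4W_lin, S4W_self, S4W_sym f1 v, h, S4W_sym f1 u]
    linear_combination B u f1 * h0
  · intro z h1 h2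
    rw [S4W_lin, S4W_sym z v, S4W_sym z f1, h1, h2]
    ring

omit [CharP F 2] in
/-- a vector `f` with `B v f = 1` -/
theorem S4W_ex (hnd : ∀ v : Fin 4 → F, (∀ w, B v w = 0) → v = 0) (v : Fin 4 → F) (hv : v ≠ 0) : ∃ f, B v f = 1 := by
  by_contra hc
  push Not at hc
  refine hv (hnd v fun w => ?_)
  by_contra hw
  refine hc ((B v w)⁻¹ • w) ?_
  rw [S4W_sc, inv_mul_cancel₀ hw]

theorem S4W_2 (hnd : ∀ v : Fin 4 → F, (∀ w, B v w = 0) → v = 0) (v : Fin 4 → F) (hv : v ≠ 0) :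
    ∃ e2 f2 f1, Gs v e2 f2 f1 := by
  obtain ⟨f1, hf1⟩ := S4W_ex hnd v hv
  -- the projection is not zero
  obtain ⟨u, hu⟩ : ∃ u, S4W_pr v f1 u ≠ 0 := by
    by_contra hc
    push Not at hc
    have h1 : (⊤ : Submodule F (Fin 4 → F)) ≤ Submodule.span F (Set.range ![v, f1]) := by
      intro u _
      have h2 := hc u
      unfold S4W_pr at h2
      have h3 : u = -(B u f1) • v + -(B u v) • f1 := by
        have h4 : u = (u + B u f1 • v + B u v • f1) + (-(B u f1) • v + -(B u v) • f1) := by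
          module
        rw [h2, zero_add] at h4
        exact h4
      rw [h3]
      refine Submodule.add_mem _ (Submodule.smul_mem _ _ (Submodule.subset_span ⟨0, rfl⟩))
        (Submodule.smul_mem _ _ (Submodule.subset_span ⟨1, rfl⟩))
    have h2 : Module.finrank F (⊤ : Submodule F (Fin 4 → F)) ≤ 2 :=
      (Submodule.finrank_mono h1).trans ((finrank_range_le_card ![v, f1]).trans (by simp))
    rw [finrank_top, Module.finrank_fin_fun] at h2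
    omega
  obtain ⟨w, hw⟩ := S4W_ex hnd _ hu
  obtain ⟨p1, p2, _⟩ := S4W_pr1 v f1 u hf1
  obtain ⟨q1, q2, q3⟩ := S4W_pr1 v f1 w hf1
  refine ⟨S4W_pr v f1 u, S4W_pr v f1 w, f1, hf1, ?_, p1, q1, ?_, q2⟩
  · rw [q3 _ p1 p2, hw]
  · rw [S4W_sym, p2]

theorem S4W_3 (hnd : ∀ v : Fin 4 → F, (∀ w, B v w = 0) → v = 0) (a b : Fin 4 → F) (hab : Pl a b) :
    ∃ f2 f1, Gs a b f2 f1 := by
  obtain ⟨hli, h0⟩ := hab
  have h2 := S4W_two (F := F)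
  rw [LinearIndependent.pair_iff] at hli
  have ha : a ≠ 0 := by
    rintro rfl
    have := hli 1 0 (by simp)
    exact one_ne_zero this.1
  obtain ⟨f, hf⟩ := S4W_ex hnd a ha
  have hb' : S4W_pr a f b ≠ 0 := by
    intro h
    unfold S4W_pr at h
    rw [S4W_sym b a, h0, zero_smul, add_zero] at h
    have h3 : B b f • a + (1 : F) • b = 0 := by
      rw [one_smul, add_comm]
      exact h
    exact one_ne_zero (hli _ _ h3).2
  obtain ⟨p1, p2, _⟩ := S4W_pr1 a f b hf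
  obtain ⟨w, hw⟩ := S4W_ex hnd _ hb'
  obtain ⟨q1, q2, q3⟩ := S4W_pr1 a f w hf
  obtain ⟨f2, hf2⟩ : ∃ f2, f2 = S4W_pr a f w := ⟨_, rfl⟩
  rw [← hf2] at q1 q2 q3
  have hbf2 : B b f2 = 1 := by
    have e1 : B (S4W_pr a f b) f2 = 1 := by rw [q3 _ p1 p2, hw]
    have e2 : B f2 (S4W_pr a f b) = B f2 b + B b f * B f2 a + B b a * B f2 f := S4W_lin _ _ _ _ _ _
    rw [S4W_sym f2 (S4W_pr a f b), e1, S4W_sym f2 a, q1, S4W_sym f2 f, q2, S4W_sym f2 b] at e2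
    rw [e2]
    ring
  refine ⟨f2, f + B b f • f2 + (0 : F) • f2, ?_, hbf2, h0, q1, ?_, ?_⟩
  · rw [S4W_lin, hf, q1]
    ring
  · rw [S4W_lin, hbf2]
    linear_combination B b f * h2
  · rw [S4W_sym, S4W_lin, S4W_self, S4W_sym f2 f, q2]
    ring

omit [CharP F 2] in
theorem S4W_mul (g h : SG F) (a b : Fin 4 → F) (w : Fin 4 → F) (h1 : (g : (Fin 4 → F) ≃ₗ[F] (Fin 4 → F)) w = a)
    (h2 : (h : (Fin 4 → F) ≃ₗ[F] (Fin 4 → F)) w = b) :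
    ((h * g⁻¹ : SG F) : (Fin 4 → F) ≃ₗ[F] (Fin 4 → F)) a = b := by
  have e1 : ((h * g⁻¹ : SG F) : (Fin 4 → F) ≃ₗ[F] (Fin 4 → F)) a =
      (h : (Fin 4 → F) ≃ₗ[F] (Fin 4 → F)) (((g : (Fin 4 → F) ≃ₗ[F] (Fin 4 → F)))⁻¹ a) := rfl
  have e2 : ((g : (Fin 4 → F) ≃ₗ[F] (Fin 4 → F)))⁻¹ a = w := by
    rw [← h1]
    exact LinearEquiv.symm_apply_apply _ w
  rw [e1, e2, h2]

end

theorem S4W (hS4B : S4B_stmt) : S4W_stmt := by
  intro F _ _
  have hnd := (hS4B F).2.2.1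
  have h1 := S4W_1 hnd
  have h2 := S4W_2 hnd
  have h3 := S4W_3 hnd
  refine ⟨h1, h2, h3, ?_, ?_⟩
  · intro v v' hv hv'
    obtain ⟨e2, f2, f1, hG⟩ := h2 v hv
    obtain ⟨e2', f2', f1', hG'⟩ := h2 v' hv'
    obtain ⟨g, hg, _⟩ := h1 _ _ _ _ hG
    obtain ⟨g', hg', _⟩ := h1 _ _ _ _ hG'
    exact ⟨g' * g⁻¹, S4W_mul g g' v v' _ hg hg'⟩
  · intro a b a' b' hab hab'
    obtain ⟨f2, f1, hG⟩ := h3 a b hab
    obtain ⟨f2', f1', hG'⟩ := h3 a' b' hab'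
    obtain ⟨g, hg1, hg2, _⟩ := h1 _ _ _ _ hG
    obtain ⟨g', hg1', hg2', _⟩ := h1 _ _ _ _ hG'
    exact ⟨g' * g⁻¹, S4W_mul g g' a a' _ hg1 hg1', S4W_mul g g' b b' _ hg2 hg2'⟩

end Pool.Agent.SP4
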