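import Pool.Agent.helper53.SP4.Spec

/-!
# Project SP4 (MP_561ff4_al), row S43: the prime 3
-/

set_option autoImplicit false

namespace Pool.Agent.SP4

open Pool.Agent.GS

theorem S43_fin (F : Type) [Field F] [Finite F] : Finite (SG F) := by
  have h1 : Function.Injective (fun g : SG F => ((g : (Fin 4 → F) ≃ₗ[F] (Fin 4 → F)) : (Fin 4 → F) → (Fin 4 → F))) := by
    intro g g' h
    apply Subtype.ext
    exact DFunLike.coe_injective h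
  exact Finite.of_injective _ h1

theorem S43 (hS4B : S4B_stmt) (hS4S : S4S_stmt) (hS4P : S4P_stmt) (hS4G : S4G_stmt) : S43_stmt := by
  intro F _ _ _ x hx hxx
  have := S43_fin F
  obtain ⟨_, _, _, _, hT, _, _, _, _, _, hZ, _⟩ := hS4B F
  obtain ⟨e1, e2, f2, f1, hG, hx2, hx1⟩ := hS4S F x hx hxx
  obtain ⟨t1, ht1, _⟩ := hT f2
  obtain ⟨t2, ht2, _⟩ := hT e2
  obtain ⟨hp3, hp1⟩ := hS4P F e1 e2 f2 f1 t1 (x t1) t2 (x t2) hG ht1 (hx1 t1 ht1) ht2 (hx2 t2 ht2)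
  obtain ⟨hg1, hg2, _⟩ := hS4G (SG F) x 3 3
  obtain ⟨z1, hz1⟩ : ∃ z1, z1 = x t1 * t1⁻¹ := ⟨_, rfl⟩
  obtain ⟨z2, hz2⟩ : ∃ z2, z2 = x t2 * t2⁻¹ := ⟨_, rfl⟩
  rw [← hz1, ← hz2] at hp3 hp1
  obtain ⟨C, hC⟩ : ∃ C, C = Subgroup.closure (Set.range fun i : Fin 3 =>
    MulAut.conj ((![1, t1, t2] : Fin 3 → SG F) i) * x * (MulAut.conj ((![1, t1, t2] : Fin 3 → SG F) i))⁻¹) := ⟨_, rfl⟩
  have m0 : x ∈ C := by
    rw [hC]
    refine Subgroup.subset_closure ⟨0, ?_⟩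
    simp
  have m1 : MulAut.conj t1 * x * (MulAut.conj t1)⁻¹ ∈ C := by
    rw [hC]
    exact Subgroup.subset_closure ⟨1, rfl⟩
  have m2 : MulAut.conj t2 * x * (MulAut.conj t2)⁻¹ ∈ C := by
    rw [hC]
    exact Subgroup.subset_closure ⟨2, rfl⟩
  have n1 : (MulAut.conj z1 : MulAut (SG F)) ∈ C := by
    rw [hz1, hg1 t1]
    exact mul_mem m0 (inv_mem m1)
  have n2 : (MulAut.conj z2 : MulAut (SG F)) ∈ C := by
    rw [hz2, hg1 t2]
    exact mul_mem m0 (inv_mem m2)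
  obtain ⟨Z, hZd⟩ : ∃ Z, Z = z1 * z1 * z2 * z1 * z2⁻¹ := ⟨_, rfl⟩
  rw [← hZd] at hp3 hp1
  have nZ : (MulAut.conj Z : MulAut (SG F)) ∈ C := by
    rw [hZd, map_mul, map_mul, map_mul, map_mul, map_inv]
    exact mul_mem (mul_mem (mul_mem (mul_mem n1 n1) n2) n1) (inv_mem n2)
  refine hg2 ![1, t1, t2] Z (by norm_num) (by rw [← hC]; exact nZ) ?_
  intro m hm
  have h1 : Z ^ m = 1 := by
    apply hZ
    intro g
    rw [← map_pow] at hm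
    have h2 : MulAut.conj (Z ^ m) g = g := by
      rw [hm]
      rfl
    rw [MulAut.conj_apply, mul_inv_eq_iff_eq_mul] at h2
    exact h2
  have h2 : orderOf Z = 3 := orderOf_eq_prime hp3 hp1
  rw [← h2]
  exact orderOf_dvd_of_pow_eq_one h1

end Pool.Agent.SP4
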